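import Pool.Agent.H471.TW.Avg

/-!
Project TW, lemma CH3: assembly from the planar rows.
-/

set_option autoImplicit false

open Finset

namespace Pool.Agent.H471.TW

open Pool.Agent.H332.HT (V2 V3 det P IP T C Full Good Bi)
open Pool.Agent.H165.HW

/-- the planar data for a triple of points -/
def Row (κ : ℝ) (a₁ a₂ b₃ x₁ x₂ x₃ : V2) (ρ₁ ρ₂ ρ₃ l₁₂ l₂₁ l₂₃ l₃₂ : ℝ) : Prop :=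
  (0 ≤ l₁₂ ∧ 0 ≤ l₂₁ ∧ 0 ≤ l₂₃ ∧ 0 ≤ l₃₂) ∧
  (∀ ν : V2, dt ν a₁ = ρ₁ * dt ν x₁ - l₁₂ * dt ν x₂) ∧
  (∀ ν : V2, dt ν a₂ - dt ν a₁ = ρ₂ * dt ν x₂ - l₂₁ * dt ν x₁ - l₂₃ * dt ν x₃) ∧
  (∀ ν : V2, κ * dt ν b₃ = ρ₃ * dt ν x₃ - l₃₂ * dt ν x₂) ∧
  (l₁₂ ≤ ρ₁ ∧ l₂₁ + l₂₃ ≤ ρ₂ ∧ l₃₂ ≤ ρ₃) ∧
  (l₂₁ ≤ ρ₁ ∧ l₂₃ ≤ ρ₃ ∧ l₁₂ + l₃₂ < ρ₂) ∧ 0 < ρ₁ ∧ 0 < ρ₃

/-- the inequality for a triple of normals on the same side -/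
theorem key3 {lam : ℝ} {K : Set V3} (hK : GB lam K) {κ ε : ℝ} (hε0 : 0 < ε) (hε1 : ε < 1)
    {a₁ a₂ b₃ x₁ x₂ x₃ : V2} {ρ₁ ρ₂ ρ₃ l₁₂ l₂₁ l₂₃ l₃₂ : ℝ}
    (hR : Row κ a₁ a₂ b₃ x₁ x₂ x₃ ρ₁ ρ₂ ρ₃ l₁₂ l₂₁ l₂₃ l₃₂)
    (hs : ε * ρ₂ < ρ₂ - l₁₂ - l₃₂) {z₁ z₂ z₃ : ℝ} {n₁ n₂ n₃ : V3}
    (σ : ℝ) (hσ : σ = 1 ∨ σ = -1)
    (hx₁ : ((x₁, z₁) : V3) ∈ K) (hx₂ : ((x₂, z₂) : V3) ∈ K) (hx₃ : ((x₃, z₃) : V3) ∈ K)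
    (hn₁ : n₁ ∈ NK K (x₁, z₁)) (hn₂ : n₂ ∈ NK K (x₂, z₂)) (hn₃ : n₃ ∈ NK K (x₃, z₃))
    (p₁ : 0 < σ * n₁.2) (p₂ : 0 < σ * n₂.2) (p₃ : 0 < σ * n₃.2) :
    0 ≤ n₂.2 * n₃.2 * dt n₁.1 a₁ + n₁.2 * n₃.2 * ((1 - ε) * (dt n₂.1 a₂ - dt n₂.1 a₁)) +
      n₁.2 * n₂.2 * (κ * dt n₃.1 b₃) ∧
    (n₂.2 * n₃.2 * dt n₁.1 a₁ + n₁.2 * n₃.2 * ((1 - ε) * (dt n₂.1 a₂ - dt n₂.1 a₁)) +
      n₁.2 * n₂.2 * (κ * dt n₃.1 b₃) = 0 → z₁ = σ ∧ z₂ = σ ∧ z₃ = σ) := by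
  obtain ⟨⟨g₁, g₂, g₃, g₄⟩, i₁, i₂, i₃, ⟨r₁, r₂, r₃⟩, ⟨c₁, c₃, c₂⟩, q₁, q₃⟩ := hR
  have hσ2 : σ * σ = 1 := by rcases hσ with h | h <;> rw [h] <;> norm_num
  have hpt : (((0 : V2), σ) : V3) ∈ K := by
    rcases hσ with h | h <;> rw [h]
    · exact hK.N
    · exact hK.S
  have hz : ∀ {x : V2} {z : ℝ}, ((x, z) : V3) ∈ K → 0 ≤ 1 - σ * z := by
    intro x z hx
    have := abs_le.1 (hK.ht _ _ hx)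
    rcases hσ with h | h <;> rw [h] <;> linarith [this.1, this.2]
  have w₁ := hz hx₁
  have w₂ := hz hx₂
  have w₃ := hz hx₃
  have R₁ := row_ineq hσ hpt hn₁ hx₂ hx₂ p₁ (ρ := ρ₁) (l := l₁₂) (m := 0) g₁ le_rfl (by linarith)
  have R₂ := row_ineq hσ hpt hn₂ hx₁ hx₃ p₂ (ρ := ρ₂) (l := l₂₁) (m := l₂₃) g₂ g₃ r₂
  have R₃ := row_ineq hσ hpt hn₃ hx₂ hx₂ p₃ (ρ := ρ₃) (l := l₃₂) (m := 0) g₄ le_rfl (by linarith)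
  have R₁' : (σ * n₁.2) * (ρ₁ * (1 - σ * z₁) - l₁₂ * (1 - σ * z₂)) ≤ dt n₁.1 a₁ := by
    rw [i₁]; linarith
  have R₂' : (σ * n₂.2) * (ρ₂ * (1 - σ * z₂) - l₂₁ * (1 - σ * z₁) - l₂₃ * (1 - σ * z₃)) ≤
      dt n₂.1 a₂ - dt n₂.1 a₁ := by
    rw [i₂]; exact R₂
  have R₃' : (σ * n₃.2) * (ρ₃ * (1 - σ * z₃) - l₃₂ * (1 - σ * z₂)) ≤ κ * dt n₃.1 b₃ := by
    rw [i₃]; linarith
  obtain ⟨τ₁, hτ₁⟩ : ∃ τ, τ = σ * n₁.2 := ⟨_, rfl⟩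
  obtain ⟨τ₂, hτ₂⟩ : ∃ τ, τ = σ * n₂.2 := ⟨_, rfl⟩
  obtain ⟨τ₃, hτ₃⟩ : ∃ τ, τ = σ * n₃.2 := ⟨_, rfl⟩
  obtain ⟨ζ₁, hζ₁⟩ : ∃ ζ, ζ = 1 - σ * z₁ := ⟨_, rfl⟩
  obtain ⟨ζ₂, hζ₂⟩ : ∃ ζ, ζ = 1 - σ * z₂ := ⟨_, rfl⟩
  obtain ⟨ζ₃, hζ₃⟩ : ∃ ζ, ζ = 1 - σ * z₃ := ⟨_, rfl⟩
  obtain ⟨F₁, hF₁⟩ : ∃ F, F = dt n₁.1 a₁ := ⟨_, rfl⟩
  obtain ⟨F₂, hF₂⟩ : ∃ F, F = dt n₂.1 a₂ - dt n₂.1 a₁ := ⟨_, rfl⟩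
  obtain ⟨F₃, hF₃⟩ : ∃ F, F = κ * dt n₃.1 b₃ := ⟨_, rfl⟩
  have m₁ : n₂.2 * n₃.2 = τ₂ * τ₃ := by
    rw [hτ₂, hτ₃]
    calc n₂.2 * n₃.2 = (σ * σ) * (n₂.2 * n₃.2) := by rw [hσ2, one_mul]
      _ = _ := by ring
  have m₂ : n₁.2 * n₃.2 = τ₁ * τ₃ := by
    rw [hτ₁, hτ₃]
    calc n₁.2 * n₃.2 = (σ * σ) * (n₁.2 * n₃.2) := by rw [hσ2, one_mul]
      _ = _ := by ring
  have m₃ : n₁.2 * n₂.2 = τ₁ * τ₂ := by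
    rw [hτ₁, hτ₂]
    calc n₁.2 * n₂.2 = (σ * σ) * (n₁.2 * n₂.2) := by rw [hσ2, one_mul]
      _ = _ := by ring
  rw [m₁, m₂, m₃, ← hF₁, ← hF₂, ← hF₃]
  rw [← hτ₁, ← hζ₁, ← hζ₂, ← hF₁] at R₁'
  rw [← hτ₂, ← hζ₁, ← hζ₂, ← hζ₃, ← hF₂] at R₂'
  rw [← hτ₃, ← hζ₂, ← hζ₃, ← hF₃] at R₃'
  rw [← hτ₁] at p₁
  rw [← hτ₂] at p₂
  rw [← hτ₃] at p₃
  rw [← hζ₁] at w₁
  rw [← hζ₂] at w₂
  rw [← hζ₃] at w₃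
  have S₁ := mul_le_mul_of_nonneg_left R₁' (mul_pos p₂ p₃).le
  have S₂ := mul_le_mul_of_nonneg_left R₂' (mul_pos (mul_pos p₁ p₃) (by linarith : 0 < 1 - ε)).le
  have S₃ := mul_le_mul_of_nonneg_left R₃' (mul_pos p₁ p₂).le
  have hm : 0 < τ₁ * τ₂ * τ₃ := mul_pos (mul_pos p₁ p₂) p₃
  have s₁ : 0 < ρ₁ - (1 - ε) * l₂₁ := by
    have : (1 - ε) * l₂₁ ≤ (1 - ε) * ρ₁ := mul_le_mul_of_nonneg_left c₁ (by linarith)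
    have : 0 < ε * ρ₁ := mul_pos hε0 q₁
    nlinarith
  have s₃ : 0 < ρ₃ - (1 - ε) * l₂₃ := by
    have : (1 - ε) * l₂₃ ≤ (1 - ε) * ρ₃ := mul_le_mul_of_nonneg_left c₃ (by linarith)
    have : 0 < ε * ρ₃ := mul_pos hε0 q₃
    nlinarith
  have s₂ : 0 < (1 - ε) * ρ₂ - l₁₂ - l₃₂ := by linarith
  have tot : τ₁ * τ₂ * τ₃ * ((ρ₁ - (1 - ε) * l₂₁) * ζ₁ + ((1 - ε) * ρ₂ - l₁₂ - l₃₂) * ζ₂ +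
      (ρ₃ - (1 - ε) * l₂₃) * ζ₃) ≤ τ₂ * τ₃ * F₁ + τ₁ * τ₃ * ((1 - ε) * F₂) + τ₁ * τ₂ * F₃ := by
    have e : τ₁ * τ₂ * τ₃ * ((ρ₁ - (1 - ε) * l₂₁) * ζ₁ + ((1 - ε) * ρ₂ - l₁₂ - l₃₂) * ζ₂ +
        (ρ₃ - (1 - ε) * l₂₃) * ζ₃) = τ₂ * τ₃ * (τ₁ * (ρ₁ * ζ₁ - l₁₂ * ζ₂)) +
        τ₁ * τ₃ * (1 - ε) * (τ₂ * (ρ₂ * ζ₂ - l₂₁ * ζ₁ - l₂₃ * ζ₃)) +
        τ₁ * τ₂ * (τ₃ * (ρ₃ * ζ₃ - l₃₂ * ζ₂)) := by ring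
    rw [e]
    linarith
  have u₁ := mul_nonneg s₁.le w₁
  have u₂ := mul_nonneg s₂.le w₂
  have u₃ := mul_nonneg s₃.le w₃
  have nn : 0 ≤ τ₁ * τ₂ * τ₃ * ((ρ₁ - (1 - ε) * l₂₁) * ζ₁ + ((1 - ε) * ρ₂ - l₁₂ - l₃₂) * ζ₂ +
      (ρ₃ - (1 - ε) * l₂₃) * ζ₃) := mul_nonneg hm.le (by linarith)
  refine ⟨le_trans nn tot, fun h0 => ?_⟩
  rw [h0] at tot
  have h1 := le_antisymm tot nn
  have h2 : (ρ₁ - (1 - ε) * l₂₁) * ζ₁ + ((1 - ε) * ρ₂ - l₁₂ - l₃₂) * ζ₂ +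
      (ρ₃ - (1 - ε) * l₂₃) * ζ₃ = 0 := by
    rcases mul_eq_zero.1 h1 with h | h
    · exact absurd h hm.ne'
    · exact h
  have h3 : (ρ₁ - (1 - ε) * l₂₁) * ζ₁ = 0 := by linarith
  have h4 : ((1 - ε) * ρ₂ - l₁₂ - l₃₂) * ζ₂ = 0 := by linarith
  have h5 : (ρ₃ - (1 - ε) * l₂₃) * ζ₃ = 0 := by linarith
  have h6 : ζ₁ = 0 := (mul_eq_zero.1 h3).resolve_left s₁.ne'
  have h7 : ζ₂ = 0 := (mul_eq_zero.1 h4).resolve_left s₂.ne'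
  have h8 : ζ₃ = 0 := (mul_eq_zero.1 h5).resolve_left s₃.ne'
  rw [hζ₁] at h6
  rw [hζ₂] at h7
  rw [hζ₃] at h8
  rcases hσ with h | h <;> rw [h] at h6 h7 h8 ⊢ <;> refine ⟨?_, ?_, ?_⟩ <;> linarith

/-- CH3 from the planar rows, general asymmetry, `κ > 0` -/
theorem asm {lam : ℝ} {K : Set V3} (hK : GB lam K) {q : ℝ → V2} (hq : Par K q)
    {a₁ b₁ a₂ b₂ a₃ b₃ κ : ℝ} (h1 : a₁ ≤ b₁) (h2 : b₁ < a₂) (h3 : a₂ ≤ b₂) (h4 : b₂ < a₃)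
    (h5 : a₃ ≤ b₃) (h6 : b₂ < a₁ + Real.pi) (h7 : b₃ < a₂ + Real.pi)
    (hT : 0 < det (q b₂ - q b₃) (q a₂ - q a₁)) (hκ : 0 < κ)
    (hκe : κ * det (q b₂) (q b₃) = det (q a₂) (q b₂) - det (q a₁) (q b₂))
    (hrow : ∀ t₁ t₂ t₃ : ℝ, a₁ ≤ t₁ → t₁ ≤ b₁ → a₂ ≤ t₂ → t₂ ≤ b₂ → a₃ ≤ t₃ → t₃ ≤ b₃ →
      ∃ ρ₁ ρ₂ ρ₃ l₁₂ l₂₁ l₂₃ l₃₂ : ℝ,
        Row κ (q a₁) (q a₂) (q b₃) (q t₁) (q t₂) (q t₃) ρ₁ ρ₂ ρ₃ l₁₂ l₂₁ l₂₃ l₃₂)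
    (hb1 : ¬ Good K q a₁ b₁) (hb2 : ¬ Good K q a₂ b₂) (hb3 : ¬ Good K q a₃ b₃) :
    (Bi K q a₁ b₁ ∧ Bi K q a₂ b₂) ∧ Bi K q a₃ b₃ := by
  obtain ⟨k₁, θ₁, z₁, n₁, hk₁, hθa₁, hθb₁, hx₁, hn₁, hne₁, hs₁⟩ := cert_arc hK hq hb1
  obtain ⟨k₂, θ₂, z₂, n₂, hk₂, hθa₂, hθb₂, hx₂, hn₂, hne₂, hs₂⟩ := cert_arc hK hq hb2
  obtain ⟨k₃, θ₃, z₃, n₃, hk₃, hθa₃, hθb₃, hx₃, hn₃, hne₃, hs₃⟩ := cert_arc hK hq hb3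
  have hrow' : ∀ p : Fin k₁ × Fin k₂ × Fin k₃, ∃ ρ₁ ρ₂ ρ₃ l₁₂ l₂₁ l₂₃ l₃₂ : ℝ,
      Row κ (q a₁) (q a₂) (q b₃) (q (θ₁ p.1)) (q (θ₂ p.2.1)) (q (θ₃ p.2.2))
        ρ₁ ρ₂ ρ₃ l₁₂ l₂₁ l₂₃ l₃₂ := fun p =>
    hrow _ _ _ (hθa₁ _) (hθb₁ _) (hθa₂ _) (hθb₂ _) (hθa₃ _) (hθb₃ _)
  choose ρ₁ ρ₂ ρ₃ l₁₂ l₂₁ l₂₃ l₃₂ hR using hrow'
  obtain ⟨ε, hε0, hε1, hε⟩ := small (ι := Fin k₁ × Fin k₂ × Fin k₃) ρ₂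
    (fun p => ρ₂ p - l₁₂ p - l₃₂ p) (fun p => by
      have := (hR p).2.2.2.2.2.1.2.2
      linarith)
  -- horizontal normals
  have hmax : ∀ {x : V2} {z : ℝ} {n : V3}, n ∈ NK K (x, z) → n.2 = 0 →
      ∀ r ∈ P K, dt n.1 r ≤ dt n.1 x := by
    rintro x z n hn h0 r ⟨y, hy, rfl⟩
    have := hn y hy
    simp only [ip, h0, zero_mul, add_zero] at this
    exact this
  have hpos : ∀ {x : V2} {z : ℝ} {n : V3}, n ∈ NK K (x, z) → n ≠ 0 → n.2 = 0 →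
      0 < dt n.1 x := by
    intro x z n hn hne h0
    exact dt_pos hK (fun hc => hne (Prod.ext hc h0)) (hmax hn h0)
  have H₁ : ∀ i, (n₁ i).2 = 0 → 0 ≤ dt (n₁ i).1 (q a₁) := by
    intro i h0
    obtain ⟨r1, r2, r3, m1, m2, m3, m4, hr⟩ := hrow (θ₁ i) a₂ a₃ (hθa₁ i) (hθb₁ i) le_rfl h3
      le_rfl h5
    rw [hr.2.1]
    have := row_hor (hpos (hn₁ i) (hne₁ i) h0) (hmax (hn₁ i) h0 _ (hq.mem a₂))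
      (hmax (hn₁ i) h0 _ (hq.mem a₂)) (m := 0) (l := m1) (ρ := r1) hr.1.1 le_rfl
      (by linarith [hr.2.2.2.2.1.1])
    linarith
  have H₂ : ∀ i, (n₂ i).2 = 0 → 0 ≤ dt (n₂ i).1 (q a₂) - dt (n₂ i).1 (q a₁) := by
    intro i h0
    obtain ⟨r1, r2, r3, m1, m2, m3, m4, hr⟩ := hrow a₁ (θ₂ i) a₃ le_rfl h1 (hθa₂ i) (hθb₂ i)
      le_rfl h5
    rw [hr.2.2.1]
    exact row_hor (hpos (hn₂ i) (hne₂ i) h0) (hmax (hn₂ i) h0 _ (hq.mem a₁))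
      (hmax (hn₂ i) h0 _ (hq.mem a₃)) hr.1.2.1 hr.1.2.2.1 hr.2.2.2.2.1.2.1
  have H₃ : ∀ i, (n₃ i).2 = 0 → 0 ≤ κ * dt (n₃ i).1 (q b₃) := by
    intro i h0
    obtain ⟨r1, r2, r3, m1, m2, m3, m4, hr⟩ := hrow a₁ a₂ (θ₃ i) le_rfl h1 le_rfl h3
      (hθa₃ i) (hθb₃ i)
    rw [hr.2.2.2.1]
    have := row_hor (hpos (hn₃ i) (hne₃ i) h0) (hmax (hn₃ i) h0 _ (hq.mem a₂))
      (hmax (hn₃ i) h0 _ (hq.mem a₂)) (m := 0) (l := m4) (ρ := r3) hr.1.2.2.2 le_rfl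
      (by linarith [hr.2.2.2.2.1.2.2])
    linarith
  have hdiff : ∀ ν : V2, dt ν (q a₂ - q a₁) = dt ν (q a₂) - dt ν (q a₁) := by
    intro ν
    simp only [dt, Prod.fst_sub, Prod.snd_sub]; ring
  -- not all normals are horizontal
  have M₁ : ∃ i, (n₁ i).2 ≠ 0 := by
    refine nhor hK hk₁ hn₁ hne₁ hs₁ (e := q a₁) (f := q b₂) 1 ?_ ?_ H₁
    · rw [one_mul]; exact hq.pos _ _ (by linarith) h6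
    · intro i
      rw [one_mul]
      rcases eq_or_lt_of_le (hθa₁ i) with h0 | h0
      · rw [← h0, det_self]
      · exact (hq.pos _ _ h0 (by linarith [hθb₁ i])).le
  have M₃ : ∃ i, (n₃ i).2 ≠ 0 := by
    refine nhor hK hk₃ hn₃ hne₃ hs₃ (e := q b₃) (f := q a₂) (-1) ?_ ?_ ?_
    · have := hq.pos a₂ b₃ (by linarith) h7
      have e : -1 * det (q b₃) (q a₂) = det (q a₂) (q b₃) := by simp only [det]; ring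
      rw [e]; exact this
    · intro i
      have e : -1 * det (q b₃) (q (θ₃ i)) = det (q (θ₃ i)) (q b₃) := by simp only [det]; ring
      rw [e]
      rcases eq_or_lt_of_le (hθb₃ i) with h0 | h0
      · rw [h0, det_self]
      · exact (hq.pos _ _ h0 (by linarith [hθa₃ i])).le
    · intro i h0
      have := H₃ i h0
      by_contra hc
      push Not at hc
      have := mul_neg_of_pos_of_neg hκ hc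
      linarith
  have pbb : 0 < det (q b₂) (q b₃) := hq.pos _ _ (by linarith) (by linarith)
  have eb₂ : det (q a₂ - q a₁) (q b₂) = κ * det (q b₂) (q b₃) := by
    rw [hκe]; simp only [det, Prod.fst_sub, Prod.snd_sub]; ring
  have eb₂' : 0 < det (q a₂ - q a₁) (q b₂) := by rw [eb₂]; exact mul_pos hκ pbb
  have hTe : det (q b₂ - q b₃) (q a₂ - q a₁) =
      det (q a₂ - q a₁) (q b₃) - det (q a₂ - q a₁) (q b₂) := by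
    simp only [det, Prod.fst_sub, Prod.snd_sub]; ring
  have ebb : det (q a₂ - q a₁) (q b₂) < det (q a₂ - q a₁) (q b₃) := by linarith
  have M₂ : ∃ i, (n₂ i).2 ≠ 0 := by
    refine nhor₂ hK hk₂ hn₂ hne₂ hs₂ (e := q a₂ - q a₁) (f := q b₃) (hq.mem b₃)
      (by linarith) ?_ (fun i h0 => by rw [hdiff]; exact H₂ i h0)
    intro i
    refine lt_of_le_of_lt ?_ ebb
    rcases eq_or_lt_of_le (hθb₂ i) with h0 | h0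
    · rw [h0]
    · have tr := tri hK hq h0 (by linarith : b₂ < b₃) (by linarith [hθa₂ i])
      have p1 := hq.pos (θ₂ i) b₂ h0 (by linarith [hθa₂ i])
      have e : det (q b₂) (q b₃) * det (q a₂ - q a₁) (q (θ₂ i)) =
          det (q a₂ - q a₁) (q b₂) * det (q (θ₂ i)) (q b₃) -
          det (q a₂ - q a₁) (q b₃) * det (q (θ₂ i)) (q b₂) := by
        simp only [det, Prod.fst_sub, Prod.snd_sub]; ring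
      have k1 := mul_le_mul_of_nonneg_left tr eb₂'.le
      have k2 := mul_le_mul_of_nonneg_right ebb.le p1.le
      by_contra hcon
      push Not at hcon
      have := mul_lt_mul_of_pos_left hcon pbb
      nlinarith
  -- averaging
  have main := avg3 (fun i => (n₁ i).2) (fun i => dt (n₁ i).1 (q a₁))
    (fun i => (n₂ i).2) (fun i => (1 - ε) * (dt (n₂ i).1 (q a₂) - dt (n₂ i).1 (q a₁)))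
    (fun i => (n₃ i).2) (fun i => κ * dt (n₃ i).1 (q b₃))
    (ht_sum n₁ hs₁) (ht_sum n₂ hs₂) (ht_sum n₃ hs₃) (dt_sum n₁ _ hs₁)
    (by rw [← mul_sum, sum_sub_distrib, dt_sum n₂ _ hs₂, dt_sum n₂ _ hs₂, sub_zero, mul_zero])
    (by rw [← mul_sum, dt_sum n₃ _ hs₃, mul_zero])
    H₁ (fun i h0 => mul_nonneg (by linarith) (H₂ i h0)) H₃ M₁ M₂ M₃
    (fun i j l p1 p2 p3 => (key3 hK hε0 hε1 (hR (i, j, l)) (hε (i, j, l)) 1 (Or.inl rfl)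
      (hx₁ i) (hx₂ j) (hx₃ l) (hn₁ i) (hn₂ j) (hn₃ l) (by rw [one_mul]; exact p1)
      (by rw [one_mul]; exact p2) (by rw [one_mul]; exact p3)).1)
    (fun i j l p1 p2 p3 => (key3 hK hε0 hε1 (hR (i, j, l)) (hε (i, j, l)) (-1) (Or.inr rfl)
      (hx₁ i) (hx₂ j) (hx₃ l) (hn₁ i) (hn₂ j) (hn₃ l) (by linarith)
      (by linarith) (by linarith)).1)
  obtain ⟨⟨i, j, l, p1, p2, p3, h0⟩, ⟨i', j', l', p1', p2', p3', h0'⟩⟩ := main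
  have y := (key3 hK hε0 hε1 (hR (i, j, l)) (hε (i, j, l)) 1 (Or.inl rfl)
      (hx₁ i) (hx₂ j) (hx₃ l) (hn₁ i) (hn₂ j) (hn₃ l) (by rw [one_mul]; exact p1)
      (by rw [one_mul]; exact p2) (by rw [one_mul]; exact p3)).2 h0
  have y' := (key3 hK hε0 hε1 (hR (i', j', l')) (hε (i', j', l')) (-1) (Or.inr rfl)
      (hx₁ i') (hx₂ j') (hx₃ l') (hn₁ i') (hn₂ j') (hn₃ l') (by linarith)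
      (by linarith) (by linarith)).2 h0'
  have X1 := hx₁ i
  have X2 := hx₂ j
  have X3 := hx₃ l
  rw [y.1] at X1
  rw [y.2.1] at X2
  rw [y.2.2] at X3
  have X1' := hx₁ i'
  have X2' := hx₂ j'
  have X3' := hx₃ l'
  rw [y'.1] at X1'
  rw [y'.2.1] at X2'
  rw [y'.2.2] at X3'
  exact ⟨⟨⟨⟨θ₁ i, hθa₁ i, hθb₁ i, X1⟩, ⟨θ₁ i', hθa₁ i', hθb₁ i', X1'⟩⟩,
    ⟨⟨θ₂ j, hθa₂ j, hθb₂ j, X2⟩, ⟨θ₂ j', hθa₂ j', hθb₂ j', X2'⟩⟩⟩,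
    ⟨⟨θ₃ l, hθa₃ l, hθb₃ l, X3⟩, ⟨θ₃ l', hθa₃ l', hθb₃ l', X3'⟩⟩⟩

end Pool.Agent.H471.TW
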