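import Pool.Agent.H165.HW.PairMain

/-!
Project TW, lemma CH3: averaging over triples of certificates of three arcs.
-/

set_option autoImplicit false

open Finset

namespace Pool.Agent.H471.TW

open Pool.Agent.H332.HT (V2 V3 det P IP T C Full Good Bi)
open Pool.Agent.H165.HW

/-- a nonzero family with sum zero takes both signs -/
theorem two_signs {k : ℕ} (τ : Fin k → ℝ) (s : ∑ i, τ i = 0) (n : ∃ i, τ i ≠ 0) :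
    (∃ i, 0 < τ i) ∧ (∃ i, τ i < 0) := by
  obtain ⟨i₀, hi₀⟩ := n
  constructor
  · by_contra hc
    push Not at hc
    have := (sum_eq_zero_iff_of_nonpos (fun i _ => hc i)).1 s i₀ (mem_univ _)
    exact hi₀ this
  · by_contra hc
    push Not at hc
    have := (sum_eq_zero_iff_of_nonneg (fun i _ => hc i)).1 s i₀ (mem_univ _)
    exact hi₀ this

theorem triple_sum {k₁ k₂ k₃ : ℕ} (U₁ : Finset (Fin k₁)) (U₂ : Finset (Fin k₂))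
    (U₃ : Finset (Fin k₃)) (τ₁ E₁ : Fin k₁ → ℝ) (τ₂ E₂ : Fin k₂ → ℝ) (τ₃ E₃ : Fin k₃ → ℝ) :
    ∑ i ∈ U₁, ∑ j ∈ U₂, ∑ l ∈ U₃,
      (τ₂ j * τ₃ l * E₁ i + τ₁ i * τ₃ l * E₂ j + τ₁ i * τ₂ j * E₃ l) =
    (∑ j ∈ U₂, τ₂ j) * (∑ l ∈ U₃, τ₃ l) * (∑ i ∈ U₁, E₁ i) +
    (∑ i ∈ U₁, τ₁ i) * (∑ l ∈ U₃, τ₃ l) * (∑ j ∈ U₂, E₂ j) +
    (∑ i ∈ U₁, τ₁ i) * (∑ j ∈ U₂, τ₂ j) * (∑ l ∈ U₃, E₃ l) := by
  simp only [sum_add_distrib, ← mul_sum, ← sum_mul]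

/-- the averaging argument for three families -/
theorem avg3 {k₁ k₂ k₃ : ℕ} (τ₁ E₁ : Fin k₁ → ℝ) (τ₂ E₂ : Fin k₂ → ℝ) (τ₃ E₃ : Fin k₃ → ℝ)
    (s₁ : ∑ i, τ₁ i = 0) (s₂ : ∑ i, τ₂ i = 0) (s₃ : ∑ i, τ₃ i = 0)
    (t₁ : ∑ i, E₁ i = 0) (t₂ : ∑ i, E₂ i = 0) (t₃ : ∑ i, E₃ i = 0)
    (h₁ : ∀ i, τ₁ i = 0 → 0 ≤ E₁ i) (h₂ : ∀ i, τ₂ i = 0 → 0 ≤ E₂ i)
    (h₃ : ∀ i, τ₃ i = 0 → 0 ≤ E₃ i)
    (n₁ : ∃ i, τ₁ i ≠ 0) (n₂ : ∃ i, τ₂ i ≠ 0) (n₃ : ∃ i, τ₃ i ≠ 0)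
    (hU : ∀ i j l, 0 < τ₁ i → 0 < τ₂ j → 0 < τ₃ l →
      0 ≤ τ₂ j * τ₃ l * E₁ i + τ₁ i * τ₃ l * E₂ j + τ₁ i * τ₂ j * E₃ l)
    (hD : ∀ i j l, τ₁ i < 0 → τ₂ j < 0 → τ₃ l < 0 →
      0 ≤ τ₂ j * τ₃ l * E₁ i + τ₁ i * τ₃ l * E₂ j + τ₁ i * τ₂ j * E₃ l) :
    (∃ i j l, 0 < τ₁ i ∧ 0 < τ₂ j ∧ 0 < τ₃ l ∧
      τ₂ j * τ₃ l * E₁ i + τ₁ i * τ₃ l * E₂ j + τ₁ i * τ₂ j * E₃ l = 0) ∧
    (∃ i j l, τ₁ i < 0 ∧ τ₂ j < 0 ∧ τ₃ l < 0 ∧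
      τ₂ j * τ₃ l * E₁ i + τ₁ i * τ₃ l * E₂ j + τ₁ i * τ₂ j * E₃ l = 0) := by
  obtain ⟨⟨i₁, p₁⟩, ⟨i₂, p₂⟩⟩ := two_signs τ₁ s₁ n₁
  obtain ⟨⟨j₁, q₁⟩, ⟨j₂, q₂⟩⟩ := two_signs τ₂ s₂ n₂
  obtain ⟨⟨l₁, r₁⟩, ⟨l₂, r₂⟩⟩ := two_signs τ₃ s₃ n₃
  obtain ⟨F, hF⟩ : ∃ F : Fin k₁ → Fin k₂ → Fin k₃ → ℝ, F = fun i j l =>
    τ₂ j * τ₃ l * E₁ i + τ₁ i * τ₃ l * E₂ j + τ₁ i * τ₂ j * E₃ l := ⟨_, rfl⟩
  obtain ⟨U₁, hU₁⟩ : ∃ U : Finset (Fin k₁), U = univ.filter (fun i => 0 < τ₁ i) := ⟨_, rfl⟩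
  obtain ⟨D₁, hD₁⟩ : ∃ U : Finset (Fin k₁), U = univ.filter (fun i => τ₁ i < 0) := ⟨_, rfl⟩
  obtain ⟨H₁, hH₁⟩ : ∃ U : Finset (Fin k₁), U = univ.filter (fun i => τ₁ i = 0) := ⟨_, rfl⟩
  obtain ⟨U₂, hU₂⟩ : ∃ U : Finset (Fin k₂), U = univ.filter (fun i => 0 < τ₂ i) := ⟨_, rfl⟩
  obtain ⟨D₂, hD₂⟩ : ∃ U : Finset (Fin k₂), U = univ.filter (fun i => τ₂ i < 0) := ⟨_, rfl⟩
  obtain ⟨H₂, hH₂⟩ : ∃ U : Finset (Fin k₂), U = univ.filter (fun i => τ₂ i = 0) := ⟨_, rfl⟩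
  obtain ⟨U₃, hU₃⟩ : ∃ U : Finset (Fin k₃), U = univ.filter (fun i => 0 < τ₃ i) := ⟨_, rfl⟩
  obtain ⟨D₃, hD₃⟩ : ∃ U : Finset (Fin k₃), U = univ.filter (fun i => τ₃ i < 0) := ⟨_, rfl⟩
  obtain ⟨H₃, hH₃⟩ : ∃ U : Finset (Fin k₃), U = univ.filter (fun i => τ₃ i = 0) := ⟨_, rfl⟩
  have mU₁ : ∀ i, i ∈ U₁ ↔ 0 < τ₁ i := fun i => by rw [hU₁]; simp
  have mD₁ : ∀ i, i ∈ D₁ ↔ τ₁ i < 0 := fun i => by rw [hD₁]; simp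
  have mH₁ : ∀ i, i ∈ H₁ ↔ τ₁ i = 0 := fun i => by rw [hH₁]; simp
  have mU₂ : ∀ i, i ∈ U₂ ↔ 0 < τ₂ i := fun i => by rw [hU₂]; simp
  have mD₂ : ∀ i, i ∈ D₂ ↔ τ₂ i < 0 := fun i => by rw [hD₂]; simp
  have mH₂ : ∀ i, i ∈ H₂ ↔ τ₂ i = 0 := fun i => by rw [hH₂]; simp
  have mU₃ : ∀ i, i ∈ U₃ ↔ 0 < τ₃ i := fun i => by rw [hU₃]; simp
  have mD₃ : ∀ i, i ∈ D₃ ↔ τ₃ i < 0 := fun i => by rw [hD₃]; simp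
  have mH₃ : ∀ i, i ∈ H₃ ↔ τ₃ i = 0 := fun i => by rw [hH₃]; simp
  have a₁ := sum_three τ₁ τ₁
  have a₂ := sum_three τ₂ τ₂
  have a₃ := sum_three τ₃ τ₃
  have b₁ := sum_three τ₁ E₁
  have b₂ := sum_three τ₂ E₂
  have b₃ := sum_three τ₃ E₃
  rw [← hU₁, ← hD₁, ← hH₁, s₁, sum_eq_zero (s := H₁) (f := τ₁) fun i hi => (mH₁ i).1 hi,
    add_zero] at a₁
  rw [← hU₂, ← hD₂, ← hH₂, s₂, sum_eq_zero (s := H₂) (f := τ₂) fun i hi => (mH₂ i).1 hi,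
    add_zero] at a₂
  rw [← hU₃, ← hD₃, ← hH₃, s₃, sum_eq_zero (s := H₃) (f := τ₃) fun i hi => (mH₃ i).1 hi,
    add_zero] at a₃
  rw [← hU₁, ← hD₁, ← hH₁, t₁] at b₁
  rw [← hU₂, ← hD₂, ← hH₂, t₂] at b₂
  rw [← hU₃, ← hD₃, ← hH₃, t₃] at b₃
  have c₁ : 0 ≤ ∑ i ∈ H₁, E₁ i := sum_nonneg fun i hi => h₁ i ((mH₁ i).1 hi)
  have c₂ : 0 ≤ ∑ i ∈ H₂, E₂ i := sum_nonneg fun i hi => h₂ i ((mH₂ i).1 hi)
  have c₃ : 0 ≤ ∑ i ∈ H₃, E₃ i := sum_nonneg fun i hi => h₃ i ((mH₃ i).1 hi)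
  have d₁ : 0 < ∑ i ∈ U₁, τ₁ i := sum_pos (fun i hi => (mU₁ i).1 hi) ⟨i₁, (mU₁ i₁).2 p₁⟩
  have d₂ : 0 < ∑ i ∈ U₂, τ₂ i := sum_pos (fun i hi => (mU₂ i).1 hi) ⟨j₁, (mU₂ j₁).2 q₁⟩
  have d₃ : 0 < ∑ i ∈ U₃, τ₃ i := sum_pos (fun i hi => (mU₃ i).1 hi) ⟨l₁, (mU₃ l₁).2 r₁⟩
  have SU := triple_sum U₁ U₂ U₃ τ₁ E₁ τ₂ E₂ τ₃ E₃
  have SD := triple_sum D₁ D₂ D₃ τ₁ E₁ τ₂ E₂ τ₃ E₃
  obtain ⟨A₁, hA₁⟩ : ∃ A, A = ∑ i ∈ U₁, τ₁ i := ⟨_, rfl⟩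
  obtain ⟨A₂, hA₂⟩ : ∃ A, A = ∑ i ∈ U₂, τ₂ i := ⟨_, rfl⟩
  obtain ⟨A₃, hA₃⟩ : ∃ A, A = ∑ i ∈ U₃, τ₃ i := ⟨_, rfl⟩
  have g₁ : ∑ i ∈ D₁, τ₁ i = -A₁ := by linarith
  have g₂ : ∑ i ∈ D₂, τ₂ i = -A₂ := by linarith
  have g₃ : ∑ i ∈ D₃, τ₃ i = -A₃ := by linarith
  rw [← hA₁, ← hA₂, ← hA₃] at SU
  rw [g₁, g₂, g₃] at SD
  rw [← hA₁] at d₁
  rw [← hA₂] at d₂
  rw [← hA₃] at d₃
  have nU : ∀ i ∈ U₁, ∀ j ∈ U₂, ∀ l ∈ U₃,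
      0 ≤ τ₂ j * τ₃ l * E₁ i + τ₁ i * τ₃ l * E₂ j + τ₁ i * τ₂ j * E₃ l :=
    fun i hi j hj l hl => hU i j l ((mU₁ i).1 hi) ((mU₂ j).1 hj) ((mU₃ l).1 hl)
  have nD : ∀ i ∈ D₁, ∀ j ∈ D₂, ∀ l ∈ D₃,
      0 ≤ τ₂ j * τ₃ l * E₁ i + τ₁ i * τ₃ l * E₂ j + τ₁ i * τ₂ j * E₃ l :=
    fun i hi j hj l hl => hD i j l ((mD₁ i).1 hi) ((mD₂ j).1 hj) ((mD₃ l).1 hl)
  have TU := sum_nonneg fun i hi => sum_nonneg fun j hj => sum_nonneg fun l hl =>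
    nU i hi j hj l hl
  have TD := sum_nonneg fun i hi => sum_nonneg fun j hj => sum_nonneg fun l hl =>
    nD i hi j hj l hl
  have e₁ := mul_nonneg (mul_pos d₂ d₃).le c₁
  have e₂ := mul_nonneg (mul_pos d₁ d₃).le c₂
  have e₃ := mul_nonneg (mul_pos d₁ d₂).le c₃
  have tot : (A₂ * A₃ * (∑ i ∈ U₁, E₁ i) + A₁ * A₃ * (∑ j ∈ U₂, E₂ j) +
      A₁ * A₂ * (∑ l ∈ U₃, E₃ l)) +
      (-A₂ * -A₃ * (∑ i ∈ D₁, E₁ i) + -A₁ * -A₃ * (∑ j ∈ D₂, E₂ j) +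
      -A₁ * -A₂ * (∑ l ∈ D₃, E₃ l)) +
      (A₂ * A₃ * (∑ i ∈ H₁, E₁ i) + A₁ * A₃ * (∑ j ∈ H₂, E₂ j) +
      A₁ * A₂ * (∑ l ∈ H₃, E₃ l)) = 0 := by
    have f₁ : ∑ i ∈ U₁, E₁ i = -∑ i ∈ D₁, E₁ i - ∑ i ∈ H₁, E₁ i := by linarith
    have f₂ : ∑ i ∈ U₂, E₂ i = -∑ i ∈ D₂, E₂ i - ∑ i ∈ H₂, E₂ i := by linarith
    have f₃ : ∑ i ∈ U₃, E₃ i = -∑ i ∈ D₃, E₃ i - ∑ i ∈ H₃, E₃ i := by linarith
    rw [f₁, f₂, f₃]; ring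
  rw [← SU, ← SD] at tot
  have zU : ∑ i ∈ U₁, ∑ j ∈ U₂, ∑ l ∈ U₃,
      (τ₂ j * τ₃ l * E₁ i + τ₁ i * τ₃ l * E₂ j + τ₁ i * τ₂ j * E₃ l) = 0 := by linarith
  have zD : ∑ i ∈ D₁, ∑ j ∈ D₂, ∑ l ∈ D₃,
      (τ₂ j * τ₃ l * E₁ i + τ₁ i * τ₃ l * E₂ j + τ₁ i * τ₂ j * E₃ l) = 0 := by linarith
  have z1 := (sum_eq_zero_iff_of_nonneg fun i hi => sum_nonneg fun j hj => sum_nonneg fun l hl =>
    nU i hi j hj l hl).1 zU i₁ ((mU₁ _).2 p₁)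
  have z2 := (sum_eq_zero_iff_of_nonneg fun j hj => sum_nonneg fun l hl =>
    nU i₁ ((mU₁ _).2 p₁) j hj l hl).1 z1 j₁ ((mU₂ _).2 q₁)
  have z3 := (sum_eq_zero_iff_of_nonneg fun l hl =>
    nU i₁ ((mU₁ _).2 p₁) j₁ ((mU₂ _).2 q₁) l hl).1 z2 l₁ ((mU₃ _).2 r₁)
  have w1 := (sum_eq_zero_iff_of_nonneg fun i hi => sum_nonneg fun j hj => sum_nonneg fun l hl =>
    nD i hi j hj l hl).1 zD i₂ ((mD₁ _).2 p₂)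
  have w2 := (sum_eq_zero_iff_of_nonneg fun j hj => sum_nonneg fun l hl =>
    nD i₂ ((mD₁ _).2 p₂) j hj l hl).1 w1 j₂ ((mD₂ _).2 q₂)
  have w3 := (sum_eq_zero_iff_of_nonneg fun l hl =>
    nD i₂ ((mD₁ _).2 p₂) j₂ ((mD₂ _).2 q₂) l hl).1 w2 l₂ ((mD₃ _).2 r₂)
  exact ⟨⟨i₁, j₁, l₁, p₁, q₁, r₁, z3⟩, ⟨i₂, j₂, l₂, p₂, q₂, r₂, w3⟩⟩

/-- one row for a normal which is not horizontal -/
theorem row_ineq {K : Set V3} {σ : ℝ} (hσ : σ = 1 ∨ σ = -1)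
    (hpt : (((0 : V2), σ) : V3) ∈ K) {x y w : V2} {z z' z'' : ℝ} {n : V3}
    (hn : n ∈ NK K (x, z)) (hy : ((y, z') : V3) ∈ K) (hw : ((w, z'') : V3) ∈ K)
    (h2 : 0 < σ * n.2) {ρ l m : ℝ} (hl : 0 ≤ l) (hm : 0 ≤ m) (hρ : l + m ≤ ρ) :
    (σ * n.2) * (ρ * (1 - σ * z) - l * (1 - σ * z') - m * (1 - σ * z'')) ≤
      ρ * dt n.1 x - l * dt n.1 y - m * dt n.1 w := by
  have hσ2 : σ * σ = 1 := by rcases hσ with h | h <;> rw [h] <;> norm_num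
  have N1 := hn _ hy
  have N2 := hn _ hw
  have N3 := hn _ hpt
  have hz0 : ∀ ν : V2, dt ν 0 = 0 := fun ν => by simp [dt]
  simp only [ip, hz0, zero_add] at N1 N2 N3
  obtain ⟨τ, hτ⟩ : ∃ τ, τ = σ * n.2 := ⟨_, rfl⟩
  have e1 : n.2 = σ * τ := by rw [hτ, ← mul_assoc, hσ2, one_mul]
  rw [← hτ] at h2 ⊢
  rw [e1] at N1 N2 N3
  obtain ⟨X, hX⟩ : ∃ X, X = dt n.1 x := ⟨_, rfl⟩
  obtain ⟨Y, hY⟩ : ∃ Y, Y = dt n.1 y := ⟨_, rfl⟩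
  obtain ⟨W, hW⟩ : ∃ W, W = dt n.1 w := ⟨_, rfl⟩
  rw [← hX, ← hY] at N1
  rw [← hX, ← hW] at N2
  rw [← hX] at N3
  rw [← hX, ← hY, ← hW]
  have N3' : τ * (1 - σ * z) ≤ X := by
    have : σ * τ * σ = τ := by
      calc σ * τ * σ = (σ * σ) * τ := by ring
        _ = τ := by rw [hσ2, one_mul]
    rw [this] at N3
    nlinarith
  have k1 : l * Y ≤ l * (X + σ * τ * z - σ * τ * z') :=
    mul_le_mul_of_nonneg_left (by linarith) hl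
  have k2 : m * W ≤ m * (X + σ * τ * z - σ * τ * z'') :=
    mul_le_mul_of_nonneg_left (by linarith) hm
  have k3 : (ρ - l - m) * (τ * (1 - σ * z)) ≤ (ρ - l - m) * X :=
    mul_le_mul_of_nonneg_left N3' (by linarith)
  nlinarith

/-- one row for a horizontal normal -/
theorem row_hor {X Y W ρ l m : ℝ} (hX : 0 < X) (hY : Y ≤ X) (hW : W ≤ X)
    (hl : 0 ≤ l) (hm : 0 ≤ m) (hρ : l + m ≤ ρ) : 0 ≤ ρ * X - l * Y - m * W := by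
  have k1 := mul_le_mul_of_nonneg_left hY hl
  have k2 := mul_le_mul_of_nonneg_left hW hm
  have k3 : 0 ≤ (ρ - l - m) * X := mul_nonneg (by linarith) hX.le
  nlinarith

/-- not all normals of a certificate are horizontal -/
theorem nhor {lam : ℝ} {K : Set V3} (hK : GB lam K) {k : ℕ} (hk : 0 < k) {x : Fin k → V2}
    {z : Fin k → ℝ} {n : Fin k → V3} (hn : ∀ i, n i ∈ NK K (x i, z i)) (hn0 : ∀ i, n i ≠ 0)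
    (hsum : ∑ i, n i = 0) {e f : V2} (s : ℝ) (hef : 0 < s * det e f)
    (hex : ∀ i, 0 ≤ s * det e (x i)) (hE : ∀ i, (n i).2 = 0 → 0 ≤ dt (n i).1 e) :
    ∃ i, (n i).2 ≠ 0 := by
  by_contra hcon
  push Not at hcon
  have hmax : ∀ i, ∀ r ∈ P K, dt (n i).1 r ≤ dt (n i).1 (x i) := by
    rintro i r ⟨y, hy, rfl⟩
    have := hn i y hy
    simp only [ip, hcon i, zero_mul, add_zero] at this
    exact this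
  have hXpos : ∀ i, 0 < dt (n i).1 (x i) := by
    intro i
    exact dt_pos hK (fun hc => hn0 i (Prod.ext hc (hcon i))) (hmax i)
  have hz : ∀ i ∈ univ, dt (n i).1 e = 0 :=
    (sum_eq_zero_iff_of_nonneg (fun i _ => hE i (hcon i))).1 (dt_sum n e hsum)
  have hpos : ∀ i, 0 < dt (n i).1 f := by
    intro i
    have e1 : s * det e f * dt (n i).1 (x i) = s * det e (x i) * dt (n i).1 f +
        s * det (x i) f * dt (n i).1 e := by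
      simp only [det, dt]; ring
    rw [hz i (mem_univ i), mul_zero, add_zero] at e1
    have m2 := mul_pos hef (hXpos i)
    by_contra hc
    push Not at hc
    have := mul_nonpos_of_nonneg_of_nonpos (hex i) hc
    linarith
  have h3 := dt_sum n f hsum
  have h4 : 0 < ∑ i, dt (n i).1 f :=
    sum_pos (fun i _ => hpos i) ⟨⟨0, hk⟩, mem_univ _⟩
  linarith

/-- not all normals of a certificate are horizontal, middle arc -/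
theorem nhor₂ {lam : ℝ} {K : Set V3} (hK : GB lam K) {k : ℕ} (hk : 0 < k) {x : Fin k → V2}
    {z : Fin k → ℝ} {n : Fin k → V3} (hn : ∀ i, n i ∈ NK K (x i, z i)) (hn0 : ∀ i, n i ≠ 0)
    (hsum : ∑ i, n i = 0) {e f : V2} (hf : f ∈ P K) (hef : 0 < det e f)
    (hex : ∀ i, det e (x i) < det e f) (hE : ∀ i, (n i).2 = 0 → 0 ≤ dt (n i).1 e) :
    ∃ i, (n i).2 ≠ 0 := by
  by_contra hcon
  push Not at hcon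
  have hmax : ∀ i, ∀ r ∈ P K, dt (n i).1 r ≤ dt (n i).1 (x i) := by
    rintro i r ⟨y, hy, rfl⟩
    have := hn i y hy
    simp only [ip, hcon i, zero_mul, add_zero] at this
    exact this
  have hXpos : ∀ i, 0 < dt (n i).1 (x i) := by
    intro i
    exact dt_pos hK (fun hc => hn0 i (Prod.ext hc (hcon i))) (hmax i)
  have hz : ∀ i ∈ univ, dt (n i).1 e = 0 :=
    (sum_eq_zero_iff_of_nonneg (fun i _ => hE i (hcon i))).1 (dt_sum n e hsum)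
  have hneg : ∀ i, dt (n i).1 f < 0 := by
    intro i
    have e1 : det e f * dt (n i).1 (x i) = det e (x i) * dt (n i).1 f +
        det (x i) f * dt (n i).1 e := by
      simp only [det, dt]; ring
    rw [hz i (mem_univ i), mul_zero, add_zero] at e1
    have m2 := mul_pos hef (hXpos i)
    by_contra hc
    push Not at hc
    have m3 := hmax i f hf
    have m4 := hXpos i
    -- `det e (x i)` would be positive, but then the value at `f` is too large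
    have m5 : 0 < det e (x i) := by
      by_contra hcc
      push Not at hcc
      have := mul_nonpos_of_nonpos_of_nonneg hcc hc
      linarith
    have m6 : det e (x i) * dt (n i).1 f ≤ det e (x i) * dt (n i).1 (x i) :=
      mul_le_mul_of_nonneg_left m3 m5.le
    have m7 : det e (x i) * dt (n i).1 (x i) < det e f * dt (n i).1 (x i) :=
      mul_lt_mul_of_pos_right (hex i) m4
    linarith
  have h3 := dt_sum n f hsum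
  have h4 : ∑ i, dt (n i).1 f < 0 :=
    sum_neg (fun i _ => hneg i) ⟨⟨0, hk⟩, mem_univ _⟩
  linarith

/-- a small shift -/
theorem small {ι : Type} [Finite ι] (ρ S : ι → ℝ) (hS : ∀ i, 0 < S i) :
    ∃ ε : ℝ, 0 < ε ∧ ε < 1 ∧ ∀ i, ε * ρ i < S i := by
  have h1 : ∀ᶠ ε in nhdsWithin (0 : ℝ) (Set.Ioi 0), ∀ i, ε * ρ i < S i := by
    rw [Filter.eventually_all]
    intro i
    have h2 : Filter.Tendsto (fun ε : ℝ => ε * ρ i) (nhdsWithin (0 : ℝ) (Set.Ioi 0))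
        (nhds (0 * ρ i)) := by
      apply Filter.Tendsto.mono_left _ nhdsWithin_le_nhds
      exact (continuous_id.mul continuous_const).tendsto 0
    rw [zero_mul] at h2
    exact h2.eventually (gt_mem_nhds (hS i))
  have h3 : ∀ᶠ ε in nhdsWithin (0 : ℝ) (Set.Ioi 0), ε ∈ Set.Ioo (0 : ℝ) 1 :=
    Ioo_mem_nhdsGT one_pos
  obtain ⟨ε, h4, h5⟩ := (h1.and h3).exists
  exact ⟨ε, h5.1, h5.2, h4⟩

end Pool.Agent.H471.TW
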