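import Pool.Agent.H471.TW.Rows
import Pool.Agent.H221.TW.Stm

/-!
Project TW (helper221): the lemma CH3 on three arcs.
-/

set_option autoImplicit false

namespace Pool.Agent.H471.TW

open Pool.Agent.H332.HT (V2 V3 det P IP T C Full Good Bi)
open Pool.Agent.H165.HW

/-- CH3 for a general measure of asymmetry -/
theorem ch3' {lam : ℝ} {K : Set V3} (hK : GB lam K) {q : ℝ → V2} (hq : Par K q)
    {a₁ b₁ a₂ b₂ a₃ b₃ : ℝ} (h1 : a₁ ≤ b₁) (h2 : b₁ < a₂) (h3 : a₂ ≤ b₂) (h4 : b₂ < a₃)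
    (h5 : a₃ ≤ b₃) (h6 : b₂ < a₁ + Real.pi) (h7 : b₃ < a₂ + Real.pi)
    (R1 : det (q a₁) (q b₁) ≤ det (q a₁) (q b₂)) (R3 : det (q a₃) (q b₃) ≤ det (q a₂) (q b₃))
    (hT : 0 < det (q b₂ - q b₃) (q a₂ - q a₁))
    (hC : det (q a₁) (q b₁) * det (q a₃) (q b₃) < det (q b₁) (q a₂) * det (q b₂) (q a₃))
    (hb1 : ¬ Good K q a₁ b₁) (hb2 : ¬ Good K q a₂ b₂) (hb3 : ¬ Good K q a₃ b₃) :
    Bi K q a₁ b₁ ∧ Bi K q a₂ b₂ := by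
  rcases le_or_gt (det (q a₂) (q b₂)) (det (q a₁) (q b₂)) with hc | hc
  · exact pair lam K hK q hq a₁ b₁ a₂ b₂ h1 h2 h3 h6 R1 hc hb1 hb2
  · have pbb : 0 < det (q b₂) (q b₃) := hq.pos _ _ (by linarith) (by linarith)
    obtain ⟨κ, hκe⟩ : ∃ κ : ℝ, κ * det (q b₂) (q b₃) =
        det (q a₂) (q b₂) - det (q a₁) (q b₂) :=
      ⟨(det (q a₂) (q b₂) - det (q a₁) (q b₂)) / det (q b₂) (q b₃), by field_simp⟩
    have hκ : 0 < κ := by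
      by_contra hcon
      push Not at hcon
      have := mul_nonpos_of_nonpos_of_nonneg hcon pbb.le
      linarith
    exact (asm hK hq h1 h2 h3 h4 h5 h6 h7 hT hκ hκe
      (fun t₁ t₂ t₃ u1 u2 u3 u4 u5 u6 =>
        rows3 hK hq h1 h2 h3 h4 h5 h6 h7 R1 R3 hT hC hκ hκe u1 u2 u3 u4 u5 u6) hb1 hb2 hb3).1

/-- CH3 -/
theorem ch3 : Pool.Agent.H221.TW.S_ch3 := by
  intro K hK q hq a₁ b₁ a₂ b₂ a₃ b₃ h1 h2 h3 h4 h5 h6 h7 _ R1 R3 hT hC hb1 hb2 hb3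
  exact ch3' hK hq h1 h2 h3 h4 h5 h6 h7 R1 R3 hT hC hb1 hb2 hb3

end Pool.Agent.H471.TW
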