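import Pool.Agent.H221.TW.All
import Pool.Agent.H471.TW.Ch3
import Pool.Agent.H471.TW.Planar

/-!
Project TW (helper221): every convex body of `ℝ³` is covered by twelve translates of its interior.
-/

set_option autoImplicit false

namespace Pool.Agent.H471.TW

theorem twelve (K : Set (EuclideanSpace ℝ (Fin 3)))
    (hK : Convex ℝ K) (hKc : IsCompact K) (hKi : (interior K).Nonempty) :
    ∃ T : Finset (EuclideanSpace ℝ (Fin 3)), T.card ≤ 12 ∧
      K ⊆ ⋃ t ∈ T, (fun x => t + x) '' interior K :=
  Pool.Agent.H221.TW.final ch3 planarG K hK hKc hKi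

end Pool.Agent.H471.TW
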