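import Pool.Agent.H292.TW.Chk3
import Pool.Agent.H221.TW.Disp

/-!
Project TW (helper221): from the reflective checker (helper292) to the classes of order patterns
(helper221's dispatcher).
-/

set_option autoImplicit false

namespace Pool.Agent.H471.TW

open Pool.Agent.H332.HT (V2 det)
open Pool.Agent.H490.TW.PB Pool.Agent.H292.TW.Chk

/-- the dets of a chain form an abstract configuration -/
theorem cfg {Q : Set V2} {th : ℕ → ℝ} {p : ℕ → V2} (h : Hyp Q th p) :
    Cfg (fun i j => det (p i) (p j)) where
  anti := fun i j => Pool.Agent.H490.TW.PB.det_swap _ _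
  plu := fun a b c d => Pool.Agent.H490.TW.PB.pluecker _ _ _ _
  per := fun i j => by simp only [Pool.Agent.H490.TW.PB.per h]
  gen := by
    intro i j hi hj hne
    rcases lt_or_gt_of_ne hne with h1 | h1
    · rcases Pool.Agent.H490.TW.PB.sgn h h1 (by omega) with h2 | h2
      · right
        rw [Pool.Agent.H490.TW.PB.det_swap]; linarith
      · exact Or.inl h2
    · rcases Pool.Agent.H490.TW.PB.sgn h h1 (by omega) with h2 | h2
      · left
        rw [Pool.Agent.H490.TW.PB.det_swap]; linarith
      · exact Or.inr h2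
  ord := by
    intro i m m' n h1 h2 h3 h4
    exact Pool.Agent.H490.TW.PB.pos_mono h (by omega) (by omega) (by omega) (by omega) h4
  sup := fun a => Pool.Agent.H490.TW.PB.cent h a
  pair := by
    intro i k h1 h2 h3
    have h4 := h.ch.pair i (i + k) (by omega) (by omega)
      ((Pool.Agent.H490.TW.PB.pos_iff h (by omega) (by omega)).1 h3)
    exact lt_max_iff.1 h4
  ch3 := by
    intro i h1 h2
    exact h.ch.ch3 i ((Pool.Agent.H490.TW.PB.pos_iff h (by omega) (by omega)).1 h1)
      ((Pool.Agent.H490.TW.PB.pos_iff h (by omega) (by omega)).1 h2)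

/-- the mask `m` only contains pairs `(i, i + d)` with `1 ≤ d ≤ v i` -/
def mk (v : List ℕ) (m : ℕ) : Bool :=
  (List.range 10).all fun i => (List.range 10).all fun j =>
    !(Nat.testBit m (10 * i + j)) ||
      (Nat.blt 0 ((j + 10 - i) % 10) && Nat.ble ((j + 10 - i) % 10) (v.getD i 0))

theorem class_false {v : List ℕ} {m : ℕ} {t : Tr} (h1 : mk v m = true)
    (h2 : chk t ⟨m, [], [], [], [], []⟩ = true) {Q : Set V2} {th : ℕ → ℝ} {p : ℕ → V2}
    (h : Hyp Q th p) (hv : Pool.Agent.H221.TW.HV th v) : False := by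
  refine chk_sound (cfg h) t _ h2 ⟨?_, by simp, by simp, by simp, by simp, by simp⟩
  intro i j hp
  simp only [Pool.Agent.H292.TW.Chk.pos, Bool.and_eq_true, Nat.blt_eq] at hp
  obtain ⟨hi, hj, hb⟩ := hp
  simp only [mk, List.all_eq_true, List.mem_range] at h1
  have h3 := h1 i hi j hj
  rw [hb] at h3
  simp only [Bool.not_true, Bool.false_or, Bool.and_eq_true, Nat.blt_eq, Nat.ble_eq] at h3
  obtain ⟨h4, h5⟩ := h3
  have h6 := (hv i hi).1
  have h7 : th (i + (j + 10 - i) % 10) ≤ th (i + v.getD i 0) :=
    h.ch.mono.monotone (by omega)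
  have h8 := Pool.Agent.H490.TW.PB.pos h (i := i) (j := i + (j + 10 - i) % 10) (by omega)
    (lt_of_le_of_lt h7 h6)
  have h9 : p (i + (j + 10 - i) % 10) = p j := by
    rcases lt_trichotomy i j with h | h' | h'
    · congr 1; omega
    · exfalso; subst h'; omega
    · have e : i + (j + 10 - i) % 10 = j + 10 := by omega
      rw [e, h.ch.pper]
  rw [h9] at h8
  exact h8

end Pool.Agent.H471.TW
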