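import Pool.Agent.H471.TW.Asm

/-!
Project TW, lemma CH3: the planar rows and columns.
-/

set_option autoImplicit false

namespace Pool.Agent.H471.TW

open Pool.Agent.H332.HT (V2 V3 det P IP T C Full Good Bi)
open Pool.Agent.H165.HW

theorem pos0 {K : Set V3} {q : ℝ → V2} (hq : Par K q) {s t : ℝ} (h : s ≤ t)
    (h' : t < s + Real.pi) : 0 ≤ det (q s) (q t) := by
  rcases eq_or_lt_of_le h with h0 | h0
  · rw [← h0, det_self]
  · exact (hq.pos _ _ h0 h').le

theorem tri0 {lam : ℝ} {K : Set V3} (hK : GB lam K) {q : ℝ → V2} (hq : Par K q) {s t u : ℝ}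
    (hst : s ≤ t) (htu : t ≤ u) (hus : u < s + Real.pi) :
    det (q s) (q u) ≤ det (q s) (q t) + det (q t) (q u) := by
  rcases eq_or_lt_of_le hst with h0 | h0
  · rw [← h0, det_self, zero_add]
  · rcases eq_or_lt_of_le htu with h1 | h1
    · rw [← h1, det_self, add_zero]
    · exact tri hK hq h0 h1 hus

theorem cramer (p x y ν : V2) (h : det x y ≠ 0) :
    dt ν p = det p y / det x y * dt ν x - det p x / det x y * dt ν y := by
  have e : dt ν p * det x y = det p y * dt ν x - det p x * dt ν y := by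
    simp only [det, dt]; ring
  field_simp
  exact e

theorem dswap (x y : V2) : det x y = -det y x := by
  simp only [det]; ring

/-- rows and columns for one triple of points -/
theorem rows3 {lam : ℝ} {K : Set V3} (hK : GB lam K) {q : ℝ → V2} (hq : Par K q)
    {a₁ b₁ a₂ b₂ a₃ b₃ κ : ℝ} (h1 : a₁ ≤ b₁) (h2 : b₁ < a₂) (h3 : a₂ ≤ b₂) (h4 : b₂ < a₃)
    (h5 : a₃ ≤ b₃) (h6 : b₂ < a₁ + Real.pi) (h7 : b₃ < a₂ + Real.pi)
    (R1 : det (q a₁) (q b₁) ≤ det (q a₁) (q b₂)) (R3 : det (q a₃) (q b₃) ≤ det (q a₂) (q b₃))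
    (hT : 0 < det (q b₂ - q b₃) (q a₂ - q a₁))
    (hC : det (q a₁) (q b₁) * det (q a₃) (q b₃) < det (q b₁) (q a₂) * det (q b₂) (q a₃))
    (hκ : 0 < κ) (hκe : κ * det (q b₂) (q b₃) = det (q a₂) (q b₂) - det (q a₁) (q b₂))
    {t₁ t₂ t₃ : ℝ} (u1 : a₁ ≤ t₁) (u2 : t₁ ≤ b₁) (u3 : a₂ ≤ t₂) (u4 : t₂ ≤ b₂)
    (u5 : a₃ ≤ t₃) (u6 : t₃ ≤ b₃) :
    ∃ ρ₁ ρ₂ ρ₃ l₁₂ l₂₁ l₂₃ l₃₂ : ℝ,
      Row κ (q a₁) (q a₂) (q b₃) (q t₁) (q t₂) (q t₃) ρ₁ ρ₂ ρ₃ l₁₂ l₂₁ l₂₃ l₃₂ := by
  -- signs
  have p12 : 0 < det (q t₁) (q t₂) := hq.pos _ _ (by linarith) (by linarith)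
  have p23 : 0 < det (q t₂) (q t₃) := hq.pos _ _ (by linarith) (by linarith)
  have pbb : 0 < det (q b₂) (q b₃) := hq.pos _ _ (by linarith) (by linarith)
  have pa1x1 : 0 ≤ det (q a₁) (q t₁) := pos0 hq u1 (by linarith)
  have px1b1 : 0 ≤ det (q t₁) (q b₁) := pos0 hq u2 (by linarith)
  have pa1x2 : 0 < det (q a₁) (q t₂) := hq.pos _ _ (by linarith) (by linarith)
  have px1a2 : 0 < det (q t₁) (q a₂) := hq.pos _ _ (by linarith) (by linarith)
  have pb1a2 : 0 < det (q b₁) (q a₂) := hq.pos _ _ (by linarith) (by linarith)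
  have pa1a2 : 0 < det (q a₁) (q a₂) := hq.pos _ _ (by linarith) (by linarith)
  have pa1b2 : 0 < det (q a₁) (q b₂) := hq.pos _ _ (by linarith) (by linarith)
  have px1b2 : 0 < det (q t₁) (q b₂) := hq.pos _ _ (by linarith) (by linarith)
  have pa2x2 : 0 ≤ det (q a₂) (q t₂) := pos0 hq u3 (by linarith)
  have px2b2 : 0 ≤ det (q t₂) (q b₂) := pos0 hq u4 (by linarith)
  have px2b3 : 0 < det (q t₂) (q b₃) := hq.pos _ _ (by linarith) (by linarith)
  have px3b3 : 0 ≤ det (q t₃) (q b₃) := pos0 hq u6 (by linarith)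
  have pa3x3 : 0 ≤ det (q a₃) (q t₃) := pos0 hq u5 (by linarith)
  have pb2x3 : 0 < det (q b₂) (q t₃) := hq.pos _ _ (by linarith) (by linarith)
  have pb2a3 : 0 < det (q b₂) (q a₃) := hq.pos _ _ (by linarith) (by linarith)
  have pa2b3 : 0 < det (q a₂) (q b₃) := hq.pos _ _ (by linarith) (by linarith)
  have pa1b1 : 0 ≤ det (q a₁) (q b₁) := pos0 hq h1 (by linarith)
  have pa3b3 : 0 ≤ det (q a₃) (q b₃) := pos0 hq h5 (by linarith)
  -- the number `u`
  obtain ⟨u, hu⟩ : ∃ u : ℝ, u * det (q b₂) (q b₃) = det (q a₂) (q b₃) - det (q a₁) (q b₃) :=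
    ⟨(det (q a₂) (q b₃) - det (q a₁) (q b₃)) / det (q b₂) (q b₃), by field_simp⟩
  have huκ : κ < u := by
    have e : det (q b₂ - q b₃) (q a₂ - q a₁) = (u - κ) * det (q b₂) (q b₃) := by
      have : (u - κ) * det (q b₂) (q b₃) = u * det (q b₂) (q b₃) - κ * det (q b₂) (q b₃) := by
        ring
      rw [this, hu, hκe]
      simp only [det, Prod.fst_sub, Prod.snd_sub]; ring
    rw [e] at hT
    by_contra hcon
    push Not at hcon
    have := mul_nonpos_of_nonpos_of_nonneg (by linarith : u - κ ≤ 0) pbb.le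
    linarith
  have hdec : ∀ w : V2, det (q a₂) w - det (q a₁) w = u * det (q b₂) w - κ * det (q b₃) w := by
    intro w
    have e : det (q b₂) (q b₃) * (det (q a₂) w - det (q a₁) w) =
        (det (q a₂) (q b₃) - det (q a₁) (q b₃)) * det (q b₂) w -
        (det (q a₂) (q b₂) - det (q a₁) (q b₂)) * det (q b₃) w := by
      simp only [det]; ring
    rw [← hu, ← hκe] at e
    have e2 : det (q b₂) (q b₃) * (det (q a₂) w - det (q a₁) w -
        (u * det (q b₂) w - κ * det (q b₃) w)) = 0 := by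
      rw [mul_sub, e]; ring
    rcases mul_eq_zero.1 e2 with h | h
    · exact absurd h pbb.ne'
    · linarith
  have dx3 := hdec (q t₃)
  have dx2 := hdec (q t₂)
  have dx1 := hdec (q t₁)
  rw [dswap (q b₃) (q t₃)] at dx3
  rw [dswap (q b₃) (q t₂), dswap (q b₂) (q t₂)] at dx2
  rw [dswap (q b₃) (q t₁), dswap (q b₂) (q t₁), dswap (q a₂) (q t₁)] at dx1
  -- the basic inequality
  have hQ0 : det (q a₁) (q t₁) * det (q t₃) (q b₃) <
      det (q t₁) (q a₂) * det (q b₂) (q t₃) := by
    have e1 : det (q a₁) (q b₁) * det (q t₁) (q a₂) - det (q a₁) (q t₁) * det (q b₁) (q a₂) =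
        det (q a₁) (q a₂) * det (q t₁) (q b₁) := by simp only [det]; ring
    have e2 : det (q a₃) (q b₃) * det (q b₂) (q t₃) - det (q t₃) (q b₃) * det (q b₂) (q a₃) =
        det (q b₂) (q b₃) * det (q a₃) (q t₃) := by simp only [det]; ring
    have f1 := mul_nonneg pa1a2.le px1b1
    have f2 := mul_nonneg pbb.le pa3x3
    have g1 : det (q a₁) (q t₁) * det (q b₁) (q a₂) ≤
        det (q a₁) (q b₁) * det (q t₁) (q a₂) := by linarith
    have g2 : det (q t₃) (q b₃) * det (q b₂) (q a₃) ≤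
        det (q a₃) (q b₃) * det (q b₂) (q t₃) := by linarith
    have g3 := mul_le_mul g1 g2 (mul_nonneg px3b3 pb2a3.le) (mul_nonneg pa1b1 px1a2.le)
    have g4 := mul_lt_mul_of_pos_right hC (mul_pos px1a2 pb2x3)
    have g5 := mul_pos pb1a2 pb2a3
    by_contra hcon
    push Not at hcon
    have g6 := mul_le_mul_of_nonneg_left hcon g5.le
    have e3 : det (q a₁) (q t₁) * det (q b₁) (q a₂) * (det (q t₃) (q b₃) * det (q b₂) (q a₃)) =
        det (q b₁) (q a₂) * det (q b₂) (q a₃) *
          (det (q a₁) (q t₁) * det (q t₃) (q b₃)) := by ring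
    have e4 : det (q a₁) (q b₁) * det (q t₁) (q a₂) * (det (q a₃) (q b₃) * det (q b₂) (q t₃)) =
        det (q a₁) (q b₁) * det (q a₃) (q b₃) *
          (det (q t₁) (q a₂) * det (q b₂) (q t₃)) := by ring
    rw [e3, e4] at g3
    linarith
  have hQ : κ * (det (q a₁) (q t₁) * det (q t₃) (q b₃)) <
      u * (det (q t₁) (q a₂) * det (q b₂) (q t₃)) := by
    have g1 := mul_lt_mul_of_pos_left hQ0 hκ
    have g2 := mul_lt_mul_of_pos_right huκ (mul_pos px1a2 pb2x3)
    linarith
  -- facts A and B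
  have hA : κ * det (q t₃) (q b₃) < det (q a₂) (q t₃) := by
    have e : det (q b₂) (q b₃) * det (q a₂) (q t₃) - (det (q a₂) (q b₂) - det (q a₁) (q b₂)) *
        det (q t₃) (q b₃) = det (q a₂) (q b₃) * det (q b₂) (q t₃) +
        det (q a₁) (q b₂) * det (q t₃) (q b₃) := by simp only [det]; ring
    rw [← hκe] at e
    have g1 := mul_pos pa2b3 pb2x3
    have g2 := mul_nonneg pa1b2.le px3b3
    by_contra hcon
    push Not at hcon
    have g3 := mul_le_mul_of_nonneg_left hcon pbb.le
    have e4 : det (q b₂) (q b₃) * (κ * det (q t₃) (q b₃)) =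
      κ * det (q b₂) (q b₃) * det (q t₃) (q b₃) := by ring
    rw [e4] at g3
    linarith
  have hB : det (q a₁) (q t₁) < u * det (q t₁) (q b₂) := by
    rcases le_or_gt 0 (det (q t₁) (q b₃)) with h | h
    · have := mul_nonneg hκ.le h
      linarith
    · have e : (det (q a₂) (q b₃) - det (q a₁) (q b₃)) * det (q t₁) (q b₂) -
          det (q b₂) (q b₃) * det (q a₁) (q t₁) =
          det (q a₂) (q b₃) * det (q t₁) (q b₂) - det (q a₁) (q b₂) * det (q t₁) (q b₃) := by
        simp only [det]; ring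
      rw [← hu] at e
      have g1 := mul_pos pa2b3 px1b2
      have g2 := mul_neg_of_pos_of_neg pa1b2 h
      by_contra hcon
      push Not at hcon
      have g3 := mul_le_mul_of_nonneg_left hcon pbb.le
      have e4 : det (q b₂) (q b₃) * (u * det (q t₁) (q b₂)) =
        u * det (q b₂) (q b₃) * det (q t₁) (q b₂) := by ring
      rw [e4] at g3
      linarith
  -- rows 1 and 3
  have r1 : det (q a₁) (q t₁) ≤ det (q a₁) (q t₂) :=
    rows₁ hK hq h1 h6 R1 u1 u2 (by linarith) u4
  have r3 : det (q t₃) (q b₃) ≤ det (q t₂) (q b₃) :=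
    rows₂ hK hq h5 h7 R3 u3 (by linarith) u5 u6
  have i1 : ∀ ν : V2, dt ν (q a₁) = det (q a₁) (q t₂) / det (q t₁) (q t₂) * dt ν (q t₁) -
      det (q a₁) (q t₁) / det (q t₁) (q t₂) * dt ν (q t₂) := fun ν => cramer _ _ _ _ p12.ne'
  have i3 : ∀ ν : V2, κ * dt ν (q b₃) = κ * det (q t₂) (q b₃) / det (q t₂) (q t₃) *
      dt ν (q t₃) - κ * det (q t₃) (q b₃) / det (q t₂) (q t₃) * dt ν (q t₂) := by
    intro ν
    have e : dt ν (q b₃) * det (q t₂) (q t₃) = det (q t₂) (q b₃) * dt ν (q t₃) -
        det (q t₃) (q b₃) * dt ν (q t₂) := by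
      simp only [det, dt]; ring
    have e' : κ * dt ν (q b₃) * det (q t₂) (q t₃) = κ * det (q t₂) (q b₃) * dt ν (q t₃) -
        κ * det (q t₃) (q b₃) * dt ν (q t₂) := by
      rw [mul_assoc, e]; ring
    field_simp
    linarith
  rcases le_total (det (q a₂) (q t₂)) (det (q a₁) (q t₂)) with hc | hc
  · -- case α
    refine ⟨det (q a₁) (q t₂) / det (q t₁) (q t₂),
      (det (q t₁) (q a₂) + det (q a₁) (q t₁)) / det (q t₁) (q t₂),
      κ * det (q t₂) (q b₃) / det (q t₂) (q t₃), det (q a₁) (q t₁) / det (q t₁) (q t₂),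
      (det (q a₁) (q t₂) - det (q a₂) (q t₂)) / det (q t₁) (q t₂), 0,
      κ * det (q t₃) (q b₃) / det (q t₂) (q t₃),
      ⟨div_nonneg pa1x1 p12.le, div_nonneg (by linarith) p12.le, le_rfl,
        div_nonneg (mul_nonneg hκ.le px3b3) p23.le⟩, i1, ?_, i3, ⟨?_, ?_, ?_⟩, ⟨?_, ?_, ?_⟩,
      div_pos pa1x2 p12, div_pos (mul_pos hκ px2b3) p23⟩
    · intro ν
      have e : (dt ν (q a₂) - dt ν (q a₁)) * det (q t₁) (q t₂) =
          (det (q t₁) (q a₂) + det (q a₁) (q t₁)) * dt ν (q t₂) -
          (det (q a₁) (q t₂) - det (q a₂) (q t₂)) * dt ν (q t₁) := by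
        simp only [det, dt]; ring
      rw [zero_mul, sub_zero]
      field_simp
      linarith
    · exact div_le_div_of_nonneg_right r1 p12.le
    · rw [add_zero]
      refine div_le_div_of_nonneg_right ?_ p12.le
      have t1 := tri0 hK hq (s := a₁) (t := a₂) (u := t₂) (by linarith) u3 (by linarith)
      have t2 := tri0 hK hq (s := a₁) (t := t₁) (u := a₂) u1 (by linarith) (by linarith)
      linarith
    · exact div_le_div_of_nonneg_right (mul_le_mul_of_nonneg_left r3 hκ.le) p23.le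
    · exact div_le_div_of_nonneg_right (by linarith) p12.le
    · exact div_nonneg (mul_nonneg hκ.le px2b3.le) p23.le
    · -- column 2
      have g0 : κ * det (q t₃) (q b₃) * det (q t₁) (q t₂) <
          det (q t₁) (q a₂) * det (q t₂) (q t₃) := by
        have e : det (q a₁) (q a₂) * (det (q t₁) (q a₂) * det (q t₂) (q t₃) -
            κ * det (q t₃) (q b₃) * det (q t₁) (q t₂)) =
            (det (q a₁) (q t₂) - det (q a₂) (q t₂)) *
              (det (q t₁) (q a₂) * (det (q a₂) (q t₃) - κ * det (q t₃) (q b₃))) +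
            det (q a₂) (q t₂) * (det (q t₁) (q a₂) * (det (q a₂) (q t₃) - det (q a₁) (q t₃)) -
              κ * det (q t₃) (q b₃) * (det (q t₁) (q a₂) + det (q a₁) (q t₁))) := by
          simp only [det]; ring
        rw [dx3] at e
        have k1 : 0 < det (q t₁) (q a₂) * (det (q a₂) (q t₃) - κ * det (q t₃) (q b₃)) :=
          mul_pos px1a2 (by linarith)
        have k2 : 0 < det (q t₁) (q a₂) * (u * det (q b₂) (q t₃) - κ * -det (q t₃) (q b₃)) -
            κ * det (q t₃) (q b₃) * (det (q t₁) (q a₂) + det (q a₁) (q t₁)) := by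
          have e' : det (q t₁) (q a₂) * (u * det (q b₂) (q t₃) - κ * -det (q t₃) (q b₃)) -
            κ * det (q t₃) (q b₃) * (det (q t₁) (q a₂) + det (q a₁) (q t₁)) =
            u * (det (q t₁) (q a₂) * det (q b₂) (q t₃)) -
            κ * (det (q a₁) (q t₁) * det (q t₃) (q b₃)) := by ring
          rw [e']
          linarith
        have k3 : 0 < det (q a₁) (q a₂) * (det (q t₁) (q a₂) * det (q t₂) (q t₃) -
            κ * det (q t₃) (q b₃) * det (q t₁) (q t₂)) := by
          rw [e]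
          rcases eq_or_lt_of_le pa2x2 with h0 | h0
          · rw [← h0, zero_mul, add_zero, sub_zero]
            exact mul_pos pa1x2 k1
          · have := mul_pos h0 k2
            have := mul_nonneg (by linarith : 0 ≤ det (q a₁) (q t₂) - det (q a₂) (q t₂)) k1.le
            linarith
        by_contra hcon
        push Not at hcon
        have := mul_nonpos_of_nonneg_of_nonpos pa1a2.le (by linarith :
          det (q t₁) (q a₂) * det (q t₂) (q t₃) -
            κ * det (q t₃) (q b₃) * det (q t₁) (q t₂) ≤ 0)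
        linarith
      rw [add_div, add_comm (det (q t₁) (q a₂) / det (q t₁) (q t₂))]
      refine add_lt_add_of_le_of_lt le_rfl ?_
      rw [div_lt_div_iff₀ p23 p12]
      exact g0
  · -- case β
    refine ⟨det (q a₁) (q t₂) / det (q t₁) (q t₂),
      (u * det (q b₂) (q t₃) + κ * det (q t₃) (q b₃)) / det (q t₂) (q t₃),
      κ * det (q t₂) (q b₃) / det (q t₂) (q t₃), det (q a₁) (q t₁) / det (q t₁) (q t₂), 0,
      (det (q a₂) (q t₂) - det (q a₁) (q t₂)) / det (q t₂) (q t₃),
      κ * det (q t₃) (q b₃) / det (q t₂) (q t₃),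
      ⟨div_nonneg pa1x1 p12.le, le_rfl, div_nonneg (by linarith) p23.le,
        div_nonneg (mul_nonneg hκ.le px3b3) p23.le⟩, i1, ?_, i3, ⟨?_, ?_, ?_⟩, ⟨?_, ?_, ?_⟩,
      div_pos pa1x2 p12, div_pos (mul_pos hκ px2b3) p23⟩
    · intro ν
      have e : (dt ν (q a₂) - dt ν (q a₁)) * det (q t₂) (q t₃) =
          (det (q a₂) (q t₃) - det (q a₁) (q t₃)) * dt ν (q t₂) -
          (det (q a₂) (q t₂) - det (q a₁) (q t₂)) * dt ν (q t₃) := by
        simp only [det, dt]; ring
      rw [dx3] at e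
      rw [zero_mul, sub_zero]
      field_simp
      linarith
    · exact div_le_div_of_nonneg_right r1 p12.le
    · rw [zero_add]
      refine div_le_div_of_nonneg_right ?_ p23.le
      have t1 := tri0 hK hq (s := t₂) (t := b₂) (u := b₃) u4 (by linarith) (by linarith)
      have t2 := tri0 hK hq (s := b₂) (t := t₃) (u := b₃) (by linarith) u6 (by linarith)
      have k1 := mul_le_mul_of_nonneg_left t1 hκ.le
      have k2 := mul_le_mul_of_nonneg_left t2 hκ.le
      have k3 := mul_le_mul_of_nonneg_right huκ.le px2b2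
      have k4 := mul_le_mul_of_nonneg_right huκ.le pb2x3.le
      linarith
    · exact div_le_div_of_nonneg_right (mul_le_mul_of_nonneg_left r3 hκ.le) p23.le
    · exact div_nonneg pa1x2.le p12.le
    · refine div_le_div_of_nonneg_right ?_ p23.le
      have k3 := mul_nonneg (hκ.le.trans huκ.le) px2b2
      linarith
    · -- column 2
      have g0 : det (q a₁) (q t₁) * det (q t₂) (q t₃) <
          u * det (q b₂) (q t₃) * det (q t₁) (q t₂) := by
        have eb : det (q a₂) (q b₂) - det (q a₁) (q b₂) = κ * det (q b₂) (q b₃) := hκe.symm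
        have e : (det (q a₂) (q b₂) - det (q a₁) (q b₂)) *
            (u * det (q b₂) (q t₃) * det (q t₁) (q t₂) -
              det (q a₁) (q t₁) * det (q t₂) (q t₃)) =
            det (q t₂) (q b₂) * (u * det (q b₂) (q t₃) * (det (q t₁) (q a₂) +
              det (q a₁) (q t₁)) - det (q a₁) (q t₁) * (det (q a₂) (q t₃) - det (q a₁) (q t₃))) +
            (det (q a₂) (q t₂) - det (q a₁) (q t₂)) *
              (det (q b₂) (q t₃) * (u * det (q t₁) (q b₂) - det (q a₁) (q t₁))) := by
          simp only [det]; ring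
        rw [dx3, eb] at e
        have k1 : 0 < det (q b₂) (q t₃) * (u * det (q t₁) (q b₂) - det (q a₁) (q t₁)) :=
          mul_pos pb2x3 (by linarith)
        have k2 : 0 < u * det (q b₂) (q t₃) * (det (q t₁) (q a₂) +
              det (q a₁) (q t₁)) - det (q a₁) (q t₁) *
              (u * det (q b₂) (q t₃) - κ * -det (q t₃) (q b₃)) := by
          have e' : u * det (q b₂) (q t₃) * (det (q t₁) (q a₂) +
              det (q a₁) (q t₁)) - det (q a₁) (q t₁) *
              (u * det (q b₂) (q t₃) - κ * -det (q t₃) (q b₃)) =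
            u * (det (q t₁) (q a₂) * det (q b₂) (q t₃)) -
            κ * (det (q a₁) (q t₁) * det (q t₃) (q b₃)) := by ring
          rw [e']
          linarith
        have pk : 0 < κ * det (q b₂) (q b₃) := mul_pos hκ pbb
        -- one of the two coefficients is positive
        have hne : 0 < det (q t₂) (q b₂) ∨ 0 < det (q a₂) (q t₂) - det (q a₁) (q t₂) := by
          by_contra hcc
          push Not at hcc
          have z1 : det (q t₂) (q b₂) = 0 := le_antisymm hcc.1 px2b2
          have z2 : det (q a₂) (q t₂) - det (q a₁) (q t₂) = 0 :=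
            le_antisymm hcc.2 (by linarith)
          have e5 : (det (q a₂) (q b₂) - det (q a₁) (q b₂)) * det (q t₁) (q t₂) =
              det (q t₂) (q b₂) * (det (q t₁) (q a₂) + det (q a₁) (q t₁)) +
              (det (q a₂) (q t₂) - det (q a₁) (q t₂)) * det (q t₁) (q b₂) := by
            simp only [det]; ring
          rw [z1, z2, eb, zero_mul, zero_mul, add_zero] at e5
          have := mul_pos pk p12
          linarith
        have k3 : 0 < κ * det (q b₂) (q b₃) *
            (u * det (q b₂) (q t₃) * det (q t₁) (q t₂) -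
              det (q a₁) (q t₁) * det (q t₂) (q t₃)) := by
          rw [e]
          rcases hne with h0 | h0
          · have := mul_pos h0 k2
            have := mul_nonneg (by linarith : 0 ≤ det (q a₂) (q t₂) - det (q a₁) (q t₂)) k1.le
            linarith
          · have := mul_pos h0 k1
            have := mul_nonneg px2b2 k2.le
            linarith
        by_contra hcon
        push Not at hcon
        have := mul_nonpos_of_nonneg_of_nonpos pk.le (by linarith :
          u * det (q b₂) (q t₃) * det (q t₁) (q t₂) -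
              det (q a₁) (q t₁) * det (q t₂) (q t₃) ≤ 0)
        linarith
      rw [add_div]
      refine add_lt_add_of_lt_of_le ?_ le_rfl
      rw [div_lt_div_iff₀ p12 p23]
      exact g0

end Pool.Agent.H471.TW
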